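import Mathlib

namespace Pool.Agent.Results.MP_88e7bb_co.Cube

/-- `S` is an independent dominating set of `G`. -/
def IndDom {m : ℕ} (G : SimpleGraph (Fin m)) (S : Finset (Fin m)) : Prop :=
  (∀ u ∈ S, ∀ v ∈ S, ¬ G.Adj u v) ∧ ∀ v, v ∉ S → ∃ u ∈ S, G.Adj u v

/-- `S` is an `i`-set: an independent dominating set of minimum size. -/
def ISet {m : ℕ} (G : SimpleGraph (Fin m)) (S : Finset (Fin m)) : Prop :=
  IndDom G S ∧ ∀ T, IndDom G T → S.card ≤ T.card

/-- `G` is well-covered: all maximal independent sets have the same size. -/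
def WellCovered {m : ℕ} (G : SimpleGraph (Fin m)) : Prop :=
  ∀ S T, IndDom G S → IndDom G T → S.card = T.card

/-- The `i`-graph of `G`. -/
def IGraph {m : ℕ} (G : SimpleGraph (Fin m)) : SimpleGraph {S : Finset (Fin m) // ISet G S} where
  Adj X Y := ∃ u ∈ X.1, ∃ v ∈ Y.1, G.Adj u v ∧ Y.1 = insert v (X.1.erase u)
  symm := ⟨by
    rintro X Y ⟨u, hu, v, hv, huv, hY⟩
    refine ⟨v, hv, u, hu, huv.symm, ?_⟩
    have hvX : v ∉ X.1.erase u := fun h => X.2.1.1 u hu v (Finset.mem_of_mem_erase h) huv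
    rw [hY, Finset.erase_insert hvX, Finset.insert_erase hu]⟩
  loopless := ⟨by
    rintro X ⟨u, hu, v, hv, huv, -⟩
    exact X.2.1.1 u hu v hv huv⟩

/-- The cube `Q₃` with the vertex `111` removed, on the numbers `0, …, 6` read in binary. -/
def H : SimpleGraph (Fin 7) where
  Adj j k := j.1 ^^^ k.1 = 1 ∨ j.1 ^^^ k.1 = 2 ∨ j.1 ^^^ k.1 = 4
  symm := ⟨by intro j k; revert j k; decide⟩
  loopless := ⟨by intro j; revert j; decide⟩

instance : DecidableRel H.Adj := fun j k =>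
  inferInstanceAs (Decidable (j.1 ^^^ k.1 = 1 ∨ j.1 ^^^ k.1 = 2 ∨ j.1 ^^^ k.1 = 4))

/-- The seed: three disjoint edges and a vertex joined to one end of each. -/
def G0 : SimpleGraph (Fin 7) where
  Adj u v := (u.1 < 6 ∧ v.1 < 6 ∧ u.1 ^^^ v.1 = 1) ∨ (u.1 = 6 ∧ v.1 < 6 ∧ v.1 % 2 = 0) ∨
    (v.1 = 6 ∧ u.1 < 6 ∧ u.1 % 2 = 0)
  symm := ⟨by intro j k; revert j k; decide⟩
  loopless := ⟨by intro j; revert j; decide⟩

instance : DecidableRel G0.Adj := fun u v =>
  inferInstanceAs (Decidable ((u.1 < 6 ∧ v.1 < 6 ∧ u.1 ^^^ v.1 = 1) ∨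
    (u.1 = 6 ∧ v.1 < 6 ∧ v.1 % 2 = 0) ∨ (v.1 = 6 ∧ u.1 < 6 ∧ u.1 % 2 = 0)))

instance (S : Finset (Fin 7)) : Decidable (IndDom G0 S) := by unfold IndDom; infer_instance

def X0 : Fin 7 → Finset (Fin 7) :=
  ![{0, 2, 4}, {1, 2, 4}, {0, 3, 4}, {1, 3, 4}, {0, 2, 5}, {1, 2, 5}, {0, 3, 5}]

theorem g0_all : ∀ S : Finset (Fin 7), IndDom G0 S → (3 ≤ S.card ∧ (S.card ≤ 3 → ∃ j, X0 j = S)) := by
  decide +kernel

theorem g0_ind : ∀ j, IndDom G0 (X0 j) ∧ (X0 j).card = 3 := by decide +kernel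

theorem g0_iset (j : Fin 7) : ISet G0 (X0 j) :=
  ⟨(g0_ind j).1, fun T hT => by rw [(g0_ind j).2]; exact (g0_all T hT).1⟩

theorem g0_inj : ∀ j k, X0 j = X0 k → j = k := by decide +kernel

theorem g0_adj : ∀ j k, (∃ u ∈ X0 j, ∃ v ∈ X0 k, G0.Adj u v ∧ X0 k = insert v ((X0 j).erase u)) ↔
    H.Adj j k := by decide +kernel

theorem realizable : Nonempty (H ≃g IGraph G0) := by
  have hb : Function.Bijective (fun j : Fin 7 => (⟨X0 j, g0_iset j⟩ : {S // ISet G0 S})) := by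
    constructor
    · intro j k h
      exact g0_inj j k (congrArg Subtype.val h)
    · rintro ⟨S, hS⟩
      have h3 : S.card ≤ 3 := by
        have := hS.2 _ (g0_ind 0).1
        rwa [(g0_ind 0).2] at this
      obtain ⟨j, hj⟩ := (g0_all S hS.1).2 h3
      exact ⟨j, Subtype.ext hj⟩
  exact ⟨{ toEquiv := Equiv.ofBijective _ hb, map_rel_iff' := fun {j k} => g0_adj j k }⟩

variable {m : ℕ} {G : SimpleGraph (Fin m)}

/-- Two different `i`-sets that differ by one vertex are adjacent. -/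
theorem ridge (X Y : {S // ISet G S}) (a v : Fin m) (ha : a ∈ X.1) (hY : Y.1 = insert v (X.1.erase a))
    (hne : X ≠ Y) : (IGraph G).Adj X Y := by
  have hvY : v ∈ Y.1 := by rw [hY]; exact Finset.mem_insert_self _ _
  have hvX : v ∉ X.1 := by
    intro hv
    apply hne
    apply Subtype.ext
    symm
    apply Finset.eq_of_subset_of_card_le
    · rw [hY]
      exact Finset.insert_subset hv (Finset.erase_subset _ _)
    · exact X.2.2 _ Y.2.1
  obtain ⟨u, hu, huv⟩ := X.2.1.2 v hvX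
  have hua : u = a := by
    by_contra h
    have : u ∈ Y.1 := by
      rw [hY]; exact Finset.mem_insert_of_mem (Finset.mem_erase.2 ⟨h, hu⟩)
    exact Y.2.1.1 u this v hvY huv
  subst hua
  exact ⟨u, hu, v, hvY, huv, hY⟩

/-- Induced four-cycles of an `i`-graph. -/
theorem square (X A B Z : {S // ISet G S}) (a a' b b' : Fin m)
    (ha : a ∈ X.1) (haa : G.Adj a a') (hA : A.1 = insert a' (X.1.erase a))
    (hb : b ∈ X.1) (hbb : G.Adj b b') (hB : B.1 = insert b' (X.1.erase b))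
    (hAB : A ≠ B) (hnAB : ¬ (IGraph G).Adj A B) (hXZ : X ≠ Z) (hnXZ : ¬ (IGraph G).Adj X Z)
    (hAZ : (IGraph G).Adj A Z) (hBZ : (IGraph G).Adj B Z) :
    a ≠ b ∧ a' ≠ b' ∧ a' ∈ Z.1 ∧ b' ∈ Z.1 ∧ Z.1 ⊆ insert a' (insert b' X.1) := by
  have ha'X : a' ∉ X.1 := fun h => X.2.1.1 a ha a' h haa
  have hb'X : b' ∉ X.1 := fun h => X.2.1.1 b hb b' h hbb
  have hab : a ≠ b := by
    rintro rfl
    apply hnAB
    refine ridge A B a' b' (by rw [hA]; exact Finset.mem_insert_self _ _) ?_ hAB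
    rw [hA, hB, Finset.erase_insert (fun h => ha'X (Finset.mem_of_mem_erase h))]
  have hab' : a' ≠ b' := by
    rintro rfl
    refine B.2.1.1 a ?_ a' ?_ haa
    · rw [hB]; exact Finset.mem_insert_of_mem (Finset.mem_erase.2 ⟨hab, ha⟩)
    · rw [hB]; exact Finset.mem_insert_self _ _
  have key : ∀ (C : {S // ISet G S}) (c c' : Fin m), c ∈ X.1 → c' ∉ X.1 →
      C.1 = insert c' (X.1.erase c) → (IGraph G).Adj C Z → c' ∈ Z.1 := by
    intro C c c' hc hc' hC ⟨u, hu, v, hv, huv, hZ⟩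
    by_contra hn
    have huc : u = c' := by
      by_contra h
      apply hn
      rw [hZ]
      refine Finset.mem_insert_of_mem (Finset.mem_erase.2 ⟨fun e => h e.symm, ?_⟩)
      rw [hC]; exact Finset.mem_insert_self _ _
    subst huc
    apply hnXZ
    refine ridge X Z c v hc ?_ hXZ
    rw [hZ, hC, Finset.erase_insert (fun h => hc' (Finset.mem_of_mem_erase h))]
  have h1 := key A a a' ha ha'X hA hAZ
  have h2 := key B b b' hb hb'X hB hBZ
  refine ⟨hab, hab', h1, h2, ?_⟩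
  obtain ⟨u, hu, v, hv, huv, hZ⟩ := hAZ
  have hvb : v = b' := by
    rw [hZ, Finset.mem_insert] at h2
    rcases h2 with h | h
    · exact h.symm
    · exfalso
      have h' := Finset.mem_of_mem_erase h
      rw [hA, Finset.mem_insert] at h'
      rcases h' with h' | h'
      · exact hab' h'.symm
      · exact hb'X (Finset.mem_of_mem_erase h')
  intro x hx
  rw [hZ, Finset.mem_insert] at hx
  rcases hx with h | h
  · rw [h, hvb]; simp
  · have h' := Finset.mem_of_mem_erase h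
    rw [hA, Finset.mem_insert] at h'
    rcases h' with h' | h'
    · rw [h']; simp
    · have := Finset.mem_of_mem_erase h'
      simp [this]

/-- Every independent set lies in an independent dominating set. -/
theorem extend (T : Finset (Fin m)) (hT : ∀ u ∈ T, ∀ v ∈ T, ¬ G.Adj u v) :
    ∃ S, T ⊆ S ∧ IndDom G S := by
  classical
  obtain ⟨S, hS, hmax⟩ := Finset.exists_max_image
    (Finset.univ.filter (fun S : Finset (Fin m) => T ⊆ S ∧ ∀ u ∈ S, ∀ v ∈ S, ¬ G.Adj u v))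
    Finset.card ⟨T, by simpa using hT⟩
  simp only [Finset.mem_filter, Finset.mem_univ, true_and] at hS hmax
  refine ⟨S, hS.1, hS.2, ?_⟩
  intro v hv
  by_contra hn
  push Not at hn
  have := hmax (insert v S) ⟨hS.1.trans (Finset.subset_insert _ _), by
    intro x hx y hy hxy
    rw [Finset.mem_insert] at hx hy
    rcases hx with rfl | hx <;> rcases hy with rfl | hy
    · exact G.irrefl hxy
    · exact hn y hy hxy.symm
    · exact hn x hx hxy
    · exact hS.2 x hx y hy hxy⟩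
  rw [Finset.card_insert_of_notMem hv] at this
  omega

theorem no_seed (hG : WellCovered G) (φ : H ≃g IGraph G) : False := by
  have adj : ∀ j k, H.Adj j k → (IGraph G).Adj (φ j) (φ k) := fun j k h => φ.map_adj_iff.2 h
  have nadj : ∀ j k, ¬ H.Adj j k → ¬ (IGraph G).Adj (φ j) (φ k) :=
    fun j k h h' => h (φ.map_adj_iff.1 h')
  have ne : ∀ j k, j ≠ k → φ j ≠ φ k := fun j k h h' => h (φ.injective h')
  obtain ⟨a, ha, a', -, haa, hA⟩ := adj 0 1 (by decide)
  obtain ⟨b, hb, b', -, hbb, hB⟩ := adj 0 2 (by decide)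
  obtain ⟨c, hc, c', -, hcc, hC⟩ := adj 0 4 (by decide)
  obtain ⟨hab, hab', h1, h2, h3⟩ := square (φ 0) (φ 1) (φ 2) (φ 3) a a' b b' ha haa hA hb hbb hB
    (ne _ _ (by decide)) (nadj _ _ (by decide)) (ne _ _ (by decide)) (nadj _ _ (by decide))
    (adj _ _ (by decide)) (adj _ _ (by decide))
  obtain ⟨hac, hac', h4, h5, h6⟩ := square (φ 0) (φ 1) (φ 4) (φ 5) a a' c c' ha haa hA hc hcc hC
    (ne _ _ (by decide)) (nadj _ _ (by decide)) (ne _ _ (by decide)) (nadj _ _ (by decide))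
    (adj _ _ (by decide)) (adj _ _ (by decide))
  obtain ⟨hbc, hbc', h7, h8, h9⟩ := square (φ 0) (φ 2) (φ 4) (φ 6) b b' c c' hb hbb hB hc hcc hC
    (ne _ _ (by decide)) (nadj _ _ (by decide)) (ne _ _ (by decide)) (nadj _ _ (by decide))
    (adj _ _ (by decide)) (adj _ _ (by decide))
  have ha'X : a' ∉ (φ 0).1 := fun h => (φ 0).2.1.1 a ha a' h haa
  have hb'X : b' ∉ (φ 0).1 := fun h => (φ 0).2.1.1 b hb b' h hbb
  have hc'X : c' ∉ (φ 0).1 := fun h => (φ 0).2.1.1 c hc c' h hcc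
  set D := (((φ 0).1.erase a).erase b).erase c with hD
  have hDX : ∀ x ∈ D, x ∈ (φ 0).1 ∧ x ≠ a ∧ x ≠ b ∧ x ≠ c := by
    intro x hx
    simp only [hD, Finset.mem_erase] at hx
    tauto
  have hDcard : D.card + 3 = (φ 0).1.card := by
    have e1 := Finset.card_erase_add_one ha
    have e2 := Finset.card_erase_add_one (Finset.mem_erase.2 ⟨hab.symm, hb⟩ : b ∈ (φ 0).1.erase a)
    have e3 := Finset.card_erase_add_one (Finset.mem_erase.2 ⟨hbc.symm, Finset.mem_erase.2
      ⟨hac.symm, hc⟩⟩ : c ∈ ((φ 0).1.erase a).erase b)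
    rw [hD]
    omega
  have nD : ∀ (Y : {S // ISet G S}) (y y' : Fin m), Y.1 = insert y' ((φ 0).1.erase y) →
      ∀ x, x ∈ (φ 0).1 → x ≠ y → ¬ G.Adj x y' := by
    intro Y y y' hY x hx hxy
    refine Y.2.1.1 x ?_ y' ?_
    · rw [hY]; exact Finset.mem_insert_of_mem (Finset.mem_erase.2 ⟨hxy, hx⟩)
    · rw [hY]; exact Finset.mem_insert_self _ _
  set T := insert a' (insert b' (insert c' D)) with hT
  have hTind : ∀ u ∈ T, ∀ v ∈ T, ¬ G.Adj u v := by
    have n1 : ¬ G.Adj a' b' := (φ 3).2.1.1 _ h1 _ h2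
    have n2 : ¬ G.Adj a' c' := (φ 5).2.1.1 _ h4 _ h5
    have n3 : ¬ G.Adj b' c' := (φ 6).2.1.1 _ h7 _ h8
    have m1 : ∀ x ∈ D, ¬ G.Adj x a' := fun x hx => nD _ a a' hA x (hDX x hx).1 (hDX x hx).2.1
    have m2 : ∀ x ∈ D, ¬ G.Adj x b' := fun x hx => nD _ b b' hB x (hDX x hx).1 (hDX x hx).2.2.1
    have m3 : ∀ x ∈ D, ¬ G.Adj x c' := fun x hx => nD _ c c' hC x (hDX x hx).1 (hDX x hx).2.2.2
    intro u hu v hv huv
    simp only [hT, Finset.mem_insert] at hu hv
    rcases hu with rfl | rfl | rfl | hu <;> rcases hv with rfl | rfl | rfl | hv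
    all_goals first
      | exact G.irrefl huv
      | exact n1 huv
      | exact n1 huv.symm
      | exact n2 huv
      | exact n2 huv.symm
      | exact n3 huv
      | exact n3 huv.symm
      | exact m1 _ hv huv.symm
      | exact m2 _ hv huv.symm
      | exact m3 _ hv huv.symm
      | exact m1 _ hu huv
      | exact m2 _ hu huv
      | exact m3 _ hu huv
      | exact (φ 0).2.1.1 _ (hDX _ hu).1 _ (hDX _ hv).1 huv
  have hTcard : T.card = (φ 0).1.card := by
    have c1 : c' ∉ D := fun h => hc'X (hDX _ h).1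
    have c2 : b' ∉ insert c' D := by
      rw [Finset.mem_insert]; rintro (h | h)
      · exact hbc' h
      · exact hb'X (hDX _ h).1
    have c3 : a' ∉ insert b' (insert c' D) := by
      simp only [Finset.mem_insert]; rintro (h | h | h)
      · exact hab' h
      · exact hac' h
      · exact ha'X (hDX _ h).1
    rw [hT, Finset.card_insert_of_notMem c3, Finset.card_insert_of_notMem c2,
      Finset.card_insert_of_notMem c1]
    omega
  obtain ⟨S, hTS, hS⟩ := extend T hTind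
  have hSi : ISet G S := ⟨hS, fun U hU => (hG S U hS hU).le⟩
  obtain ⟨j, hj⟩ := φ.surjective ⟨S, hSi⟩
  have hjS : (φ j).1 = S := congrArg Subtype.val hj
  have i1 : a' ∈ (φ j).1 := by rw [hjS]; exact hTS (by simp [hT])
  have i2 : b' ∈ (φ j).1 := by rw [hjS]; exact hTS (by simp [hT])
  have i3 : c' ∈ (φ j).1 := by rw [hjS]; exact hTS (by simp [hT])
  have one : ∀ (Y : {S // ISet G S}) (y y' z : Fin m), Y.1 = insert y' ((φ 0).1.erase y) →
      z ∈ Y.1 → z ∉ (φ 0).1 → z = y' := by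
    intro Y y y' z hY hz hz'
    rw [hY, Finset.mem_insert] at hz
    exact hz.resolve_right (fun h => hz' (Finset.mem_of_mem_erase h))
  have two : ∀ (Y : {S // ISet G S}) (y y' z : Fin m), Y.1 ⊆ insert y (insert y' (φ 0).1) →
      z ∈ Y.1 → z ∉ (φ 0).1 → z = y ∨ z = y' := by
    intro Y y y' z hY hz hz'
    have := hY hz
    simp only [Finset.mem_insert] at this
    tauto
  fin_cases j
  · exact ha'X i1
  · exact hab' (one _ _ _ _ hA i2 hb'X).symm
  · exact hab' (one _ _ _ _ hB i1 ha'X)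
  · rcases two _ _ _ _ h3 i3 hc'X with h | h
    · exact hac' h.symm
    · exact hbc' h.symm
  · exact hac' (one _ _ _ _ hC i1 ha'X)
  · rcases two _ _ _ _ h6 i2 hb'X with h | h
    · exact hab' h.symm
    · exact hbc' h
  · rcases two _ _ _ _ h9 i1 ha'X with h | h
    · exact hab' h
    · exact hac' h

theorem result :
    (∃ (m : ℕ) (G : SimpleGraph (Fin m)), Nonempty (IGraph G ≃g H)) ∧
      ∀ (m : ℕ) (G : SimpleGraph (Fin m)), WellCovered G → IsEmpty (IGraph G ≃g H) :=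
  ⟨⟨7, G0, realizable.map RelIso.symm⟩, fun _ _ hG => ⟨fun φ => no_seed hG φ.symm⟩⟩

end Pool.Agent.Results.MP_88e7bb_co.Cube
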